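import Mathlib
import Pool.Agent.H54.PD.Univ

/-!
# MP_7f399b_lc: the inclusion law for the products of distinct variables
-/

namespace Pool.Agent.Results.MP_7f399b_lc.DistinctVariables

open Pool.Agent.PatDepth Pool.Agent.H54.PD

/-- Over every alphabet with at least two letters: if `p` is a product of pairwise distinct
variables (so that `L(p)` consists of all words of length at least `|p|`), `q` is an arbitrary
pattern and `L(p) ⊊ L(q)`, then `2|p| - #var(p) > 2|q| - #var(q)`. -/
theorem result (A : Type) [Nontrivial A] (p q : List (ℕ ⊕ A))
    (hvar : ∀ s ∈ p, ∃ x : ℕ, s = Sum.inl x) (hp : p.Nodup) (h : Lang p ⊂ Lang q) :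
    2 * q.length + nvar p < 2 * p.length + nvar q :=
  law_free h hvar hp

end Pool.Agent.Results.MP_7f399b_lc.DistinctVariables
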