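import Mathlib
import Pool.Agent.H54.PD.FineLaw

/-!
# MP_7f399b_lc: the inclusion law below patterns with few single-occurrence variables
-/

namespace Pool.Agent.Results.MP_7f399b_lc.FewSingles

open Pool.Agent.PatDepth Pool.Agent.H54.PD

/-- Let `A` be a finite alphabet with at least two letters and `L(p) ⊊ L(q)`. Let `s` be the number
of variables that occur exactly once in `q`. If

`s (s + 1) / (2 |A| ^ 2) + max (1, s / |A|) * (∏ (1 - |A| ^ (1 - 2 m_x))⁻¹ - 1) < 1`,

the product being over the variables `x` of `q` that occur `m_x ≥ 2` times, then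
`2|p| - #var(p) > 2|q| - #var(q)`. -/
theorem result (A : Type) [Fintype A] [Nontrivial A] (p q : List (ℕ ⊕ A))
    (h : Lang p ⊂ Lang q) (hq : FewSingles (Fintype.card A) q) :
    2 * q.length + nvar p < 2 * p.length + nvar q :=
  law_fine h hq

end Pool.Agent.Results.MP_7f399b_lc.FewSingles
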