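import Mathlib
import Pool.Agent.H54.PD.Mix

/-!
# MP_7f399b_lc: the inclusion law below patterns whose repeated variables are non-cross, and the
# depth of the chains whose long steps start at such patterns
-/

namespace Pool.Agent.Results.MP_7f399b_lc.RepeatedNonCross

open Pool.Agent.PatDepth Pool.Agent.H54.PD

/-- Over every finite alphabet with at least two letters:

* if `L(p) ⊊ L(q)` and no repeated variable of `q` occurs between two occurrences of another
  variable, `p` being arbitrary, then `2|p| - #var(p) > 2|q| - #var(q)`;
* for every pattern `p`, a longest strictly decreasing chain of pattern languages from `L(x₁)` down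
  to `L(p)`, in which every pattern followed by one that is at least two symbols longer belongs to
  this class, has exactly `2|p| - #var(p) - 1` steps. -/
theorem result (A : Type) [Fintype A] [Nontrivial A] :
    (∀ p q : List (ℕ ⊕ A), RNonCross q → Lang p ⊂ Lang q →
      2 * q.length + nvar p < 2 * p.length + nvar q) ∧
    ∀ p : List (ℕ ⊕ A), p ≠ [] →
      IsGreatest {n | HasMixedChain p n} (2 * p.length - nvar p - 1) :=
  ⟨fun _ _ hq h => law_R hq h, fun _ hp => mixed_depth hp⟩

end Pool.Agent.Results.MP_7f399b_lc.RepeatedNonCross
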