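import Mathlib
import Pool.Agent.H54.PD.FineLaw

/-!
# MP_7f399b_lc: the inclusion law below patterns with at most three variables
-/

namespace Pool.Agent.Results.MP_7f399b_lc.ThreeVariables

open Pool.Agent.PatDepth Pool.Agent.H54.PD

/-- Over every finite alphabet with at least two letters: if `L(p) ⊊ L(q)` and `q` has at most three
distinct variables, `p` being arbitrary, then `2|p| - #var(p) > 2|q| - #var(q)`. -/
theorem result (A : Type) [Fintype A] [Nontrivial A] (p q : List (ℕ ⊕ A))
    (h : Lang p ⊂ Lang q) (hq : nvar q ≤ 3) :
    2 * q.length + nvar p < 2 * p.length + nvar q :=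
  law_three h hq

end Pool.Agent.Results.MP_7f399b_lc.ThreeVariables
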